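import Mathlib

/-! # MP_be8317_an, Q1: the operator version of Alzer's inequality is true

For positive invertible operators `A_j ≤ 1/2` on a complex Hilbert space and `A'_j = 1 - A_j`,
`A'_n - G'_n ≤ A_n - G_n`, where `A_n` is the arithmetic mean and `G_n` the recursively defined
geometric mean, for every number `n` of operators. The same holds in every unital C*-algebra.

Proof. Put `U_j = 1/2 - A_j ≥ 0` and `f (s) = G_n (1/2 + s U_1, ..., 1/2 + s U_n)`, `|s| ≤ 1`.
The mean is monotone in each variable, also for two by two matrices of operators, and commutes with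
star homomorphisms. Let `w = 1 / √2`. Comparing the matrices
`1/2 + U_j ⊗ [[a/2, a/2], [a/2, -a/2]] ≤ diag (1/2 + a U_j, 1/2)` and
`diag (1/2, 1/2 - a U_j) ≤ 1/2 + U_j ⊗ [[a/2, -a/2], [-a/2, -a/2]]` (both two by two matrices in
the middle have the eigenvalues `± a w`) and adding up the entries of the means, one gets
`√2 (f (a w) - f (- a w)) ≤ f (a) - f (- a)`. By iteration
`w ^ (- k) (f (w ^ k) - f (- w ^ k)) ≤ f (1) - f (-1)`, and by the comparison with the harmonic and
arithmetic means the left side tends to twice the arithmetic mean of the `U_j`. -/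

set_option linter.unusedSectionVars false

namespace Pool.Agent.Results.MP_be8317_an.OperatorAlzer

section generic

variable {B : Type*} [CStarAlgebra B] [PartialOrder B] [StarOrderedRing B]

/-- The mean `Y^(1/2) (Y^(-1/2) X Y^(-1/2))^t Y^(1/2)`. -/
noncomputable def Phi (t : ℝ) (X Y : B) : B :=
  Y ^ (1 / 2 : ℝ) * (Y ^ (-(1 / 2) : ℝ) * X * Y ^ (-(1 / 2) : ℝ)) ^ t * Y ^ (1 / 2 : ℝ)

/-- The geometric mean, defined recursively. -/
noncomputable def Gm : List B → B
  | [] => 1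
  | [X] => X
  | X :: Y :: L => Phi (1 / ((L.length + 2 : ℕ) : ℝ)) X (Gm (Y :: L))

lemma map_rpow {B' : Type*} [CStarAlgebra B'] [PartialOrder B'] [StarOrderedRing B']
    (φ : B →⋆ₐ[ℂ] B') {a : B} (ha : IsStrictlyPositive a) (t : ℝ) :
    φ (a ^ t) = (φ a) ^ t := by
  rw [CFC.rpow_def, CFC.rpow_def]
  have h0 : (0 : NNReal) ∉ spectrum NNReal a := spectrum.zero_notMem _ ha.isUnit
  refine StarAlgHomClass.map_cfc (S := ℂ) φ (fun x : NNReal => x ^ t) a ?_ ?_ ha.nonneg ?_
  · exact NNReal.continuousOn_rpow_const (Or.inl h0)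
  · exact map_continuous φ
  · exact map_nonneg φ ha.nonneg

lemma sp_conj {X Y : B} (hX : IsStrictlyPositive X) (hY : IsStrictlyPositive Y) (r : ℝ) :
    IsStrictlyPositive (Y ^ r * X * Y ^ r) := by
  have h1 : IsStrictlyPositive (Y ^ r) := hY.rpow Y r
  exact ⟨conjugate_nonneg_of_nonneg hX.nonneg h1.nonneg, (h1.isUnit.mul hX.isUnit).mul h1.isUnit⟩

lemma phi_sp {X Y : B} (hX : IsStrictlyPositive X) (hY : IsStrictlyPositive Y) (t : ℝ) :
    IsStrictlyPositive (Phi t X Y) :=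
  sp_conj ((sp_conj hX hY _).rpow _ t) hY _

lemma map_sp {B' : Type*} [CStarAlgebra B'] [PartialOrder B'] [StarOrderedRing B']
    (φ : B →⋆ₐ[ℂ] B') {a : B} (ha : IsStrictlyPositive a) : IsStrictlyPositive (φ a) :=
  ⟨map_nonneg φ ha.nonneg, ha.isUnit.map φ⟩

lemma map_phi {B' : Type*} [CStarAlgebra B'] [PartialOrder B'] [StarOrderedRing B']
    (φ : B →⋆ₐ[ℂ] B') {X Y : B} (hX : IsStrictlyPositive X) (hY : IsStrictlyPositive Y) (t : ℝ) :
    φ (Phi t X Y) = Phi t (φ X) (φ Y) := by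
  unfold Phi
  rw [map_mul, map_mul, map_rpow φ hY, map_rpow φ (sp_conj hX hY _), map_mul, map_mul,
    map_rpow φ hY]

/-- Conjugation by a unitary element, as a star algebra homomorphism. -/
lemma rpow_conj {W a : B} (h1 : star W * W = 1) (h2 : W * star W = 1)
    (ha : IsStrictlyPositive a) (t : ℝ) : (W * a * star W) ^ t = W * a ^ t * star W := by
  let u : unitary B := ⟨W, by rw [Unitary.mem_iff]; exact ⟨h1, h2⟩⟩
  have h := map_rpow (Unitary.conjStarAlgAut ℂ B u : B ≃⋆ₐ[ℂ] B).toStarAlgHom ha t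
  exact h.symm

lemma pw_add {Y : B} (hY : IsStrictlyPositive Y) (r s : ℝ) : Y ^ r * Y ^ s = Y ^ (r + s) :=
  (CFC.rpow_add hY.isUnit).symm

lemma pw_zero {Y : B} (hY : IsStrictlyPositive Y) : Y ^ (0 : ℝ) = 1 := CFC.rpow_zero Y hY.nonneg

lemma pw_one {Y : B} (hY : IsStrictlyPositive Y) : Y ^ (1 : ℝ) = Y := CFC.rpow_one Y hY.nonneg

lemma pw_sa {Y : B} (hY : IsStrictlyPositive Y) (r : ℝ) : star (Y ^ r) = Y ^ r :=
  (hY.rpow Y r).isSelfAdjoint.star_eq

/-- The mean, with the roles of the two arguments exchanged. -/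
lemma phi_swap {X Y : B} (hX : IsStrictlyPositive X) (hY : IsStrictlyPositive Y) (t : ℝ) :
    Phi t X Y = Phi (1 - t) Y X := by
  unfold Phi
  set x := X ^ (1 / 2 : ℝ) with hx
  set xi := X ^ (-(1 / 2) : ℝ) with hxi
  set y := Y ^ (1 / 2 : ℝ) with hy
  set yi := Y ^ (-(1 / 2) : ℝ) with hyi
  have hxx : x * x = X := by rw [hx, pw_add hX]; norm_num; exact pw_one hX
  have hyy : y * y = Y := by rw [hy, pw_add hY]; norm_num; exact pw_one hY
  have hxxi : x * xi = 1 := by rw [hx, hxi, pw_add hX, add_neg_cancel, pw_zero hX]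
  have hxix : xi * x = 1 := by rw [hx, hxi, pw_add hX, neg_add_cancel, pw_zero hX]
  have hyyi : y * yi = 1 := by rw [hy, hyi, pw_add hY, add_neg_cancel, pw_zero hY]
  have hyiy : yi * y = 1 := by rw [hy, hyi, pw_add hY, neg_add_cancel, pw_zero hY]
  have sx : star x = x := pw_sa hX _
  have sxi : star xi = xi := pw_sa hX _
  have sy : star y = y := pw_sa hY _
  have syi : star yi = yi := pw_sa hY _
  set C := yi * X * yi with hC
  have hCsp : IsStrictlyPositive C := sp_conj hX hY _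
  set c := C ^ (-(1 / 2) : ℝ) with hc
  have sc : star c = c := pw_sa hCsp _
  set W := x * yi * c with hW
  have hsW : star W = c * yi * x := by
    rw [hW, star_mul, star_mul, sx, syi, sc, mul_assoc]
  have hCC : yi * x * (x * yi) = C := by
    rw [hC, ← hxx]; simp only [mul_assoc]
  have h1 : star W * W = 1 := by
    have e : star W * W = c * (yi * x * (x * yi)) * c := by
      rw [hsW, hW]; simp only [mul_assoc]
    rw [e, hCC]
    have e2 : c * C * c = C ^ (-(1 / 2) : ℝ) * C ^ (1 : ℝ) * C ^ (-(1 / 2) : ℝ) := by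
      rw [pw_one hCsp]
    rw [e2, pw_add hCsp, pw_add hCsp]
    norm_num
    exact pw_zero hCsp
  have hWu : IsUnit W := by
    have a1 : IsUnit x := (hX.rpow X _).isUnit
    have a2 : IsUnit yi := (hY.rpow Y _).isUnit
    have a3 : IsUnit c := (hCsp.rpow C _).isUnit
    exact (a1.mul a2).mul a3
  have h2 : W * star W = 1 := by
    obtain ⟨w, hw⟩ := hWu
    have e : star W = ((w⁻¹ : Bˣ) : B) := by
      rw [← hw] at h1 ⊢
      exact (Units.inv_eq_of_mul_eq_one_left h1).symm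
    rw [e, ← hw]; simp
  -- `D = W C⁻¹ W*`
  have hD : xi * Y * xi = W * C ^ (-1 : ℝ) * star W := by
    -- it is enough to compare the inverses
    have h3 : (xi * Y * xi) * (W * C * star W) = 1 := by
      have e : W * C * star W = x * yi * (yi * x) := by
        rw [hsW, hW]
        have e2 : x * yi * c * C * (c * yi * x) = x * yi * (c * C * c) * (yi * x) := by
          simp only [mul_assoc]
        have e3 : c * C * c = 1 := by
          have : c * C * c = C ^ (-(1 / 2) : ℝ) * C ^ (1 : ℝ) * C ^ (-(1 / 2) : ℝ) := by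
            rw [pw_one hCsp]
          rw [this, pw_add hCsp, pw_add hCsp]
          norm_num
          exact pw_zero hCsp
        rw [e2, e3, mul_one]
      rw [e, ← hyy]
      have e4 : xi * (y * y) * xi * (x * yi * (yi * x))
          = xi * (y * (y * ((xi * x) * yi) * yi) * x) := by
        simp only [mul_assoc]
      rw [e4, hxix, one_mul, hyyi, one_mul, hyyi, one_mul, hxix]
    have h4 : (W * C * star W) * (W * C ^ (-1 : ℝ) * star W) = 1 := by
      have e : (W * C * star W) * (W * C ^ (-1 : ℝ) * star W)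
          = W * (C * ((star W * W) * C ^ (-1 : ℝ))) * star W := by
        simp only [mul_assoc]
      have e2 : C * C ^ (-1 : ℝ) = 1 := by
        conv_lhs => rw [← pw_one hCsp]
        rw [CFC.rpow_rpow C 1 (-1) one_ne_zero hCsp, pw_add hCsp]
        norm_num
        exact pw_zero hCsp
      rw [e, h1, one_mul, e2, mul_one, h2]
    calc xi * Y * xi = (xi * Y * xi) * ((W * C * star W) * (W * C ^ (-1 : ℝ) * star W)) := by
          rw [h4, mul_one]
      _ = ((xi * Y * xi) * (W * C * star W)) * (W * C ^ (-1 : ℝ) * star W) :=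
          (mul_assoc (xi * Y * xi) (W * C * star W) _).symm
      _ = _ := by rw [h3, one_mul]
  rw [hD, rpow_conj h1 h2 (hCsp.rpow C _), CFC.rpow_rpow C (-1) (1 - t) (by norm_num) hCsp]
  -- `x W = y C^(1/2)`
  have h5 : x * W = y * C ^ (1 / 2 : ℝ) := by
    have e : x * W = y * (yi * (x * x) * yi) * c := by
      rw [hW]
      have : y * (yi * (x * x) * yi) * c = (y * yi) * (x * x) * yi * c := by simp only [mul_assoc]
      rw [this, hyyi, one_mul]; simp only [mul_assoc]
    rw [e, hxx, ← hC, hc, mul_assoc]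
    congr 1
    conv_lhs => rw [← pw_one hCsp]
    rw [CFC.rpow_rpow C 1 _ one_ne_zero hCsp, pw_add hCsp]
    norm_num
  have h6 : star W * x = C ^ (1 / 2 : ℝ) * y := by
    have := congrArg star h5
    rw [star_mul x W, sx, star_mul y, sy, pw_sa hCsp] at this
    exact this
  have e : x * (W * C ^ (-1 * (1 - t)) * star W) * x
      = (x * W) * C ^ (-1 * (1 - t)) * (star W * x) := by simp only [mul_assoc]
  rw [e, h5, h6]
  have e2 : y * C ^ (1 / 2 : ℝ) * C ^ (-1 * (1 - t)) * (C ^ (1 / 2 : ℝ) * y)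
      = y * (C ^ (1 / 2 : ℝ) * C ^ (-1 * (1 - t)) * C ^ (1 / 2 : ℝ)) * y := by
    simp only [mul_assoc]
  rw [e2, pw_add hCsp, pw_add hCsp]
  congr 3
  ring

/-! ### Monotonicity -/

lemma phi_mono_left {X X' Y : B} (hX : X ≤ X')
    (hY : IsStrictlyPositive Y) {t : ℝ} (ht : t ∈ Set.Icc (0 : ℝ) 1) :
    Phi t X Y ≤ Phi t X' Y := by
  unfold Phi
  refine conjugate_le_conjugate_of_nonneg ?_ (hY.rpow Y _).nonneg
  refine CFC.rpow_le_rpow ht ?_
  exact conjugate_le_conjugate_of_nonneg hX (hY.rpow Y _).nonneg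

lemma sp_of_le {X X' : B} (hX : X ≤ X') (hX0 : IsStrictlyPositive X) : IsStrictlyPositive X' :=
  ⟨hX0.nonneg.trans hX, CStarAlgebra.isUnit_of_le X hX hX0⟩

lemma phi_mono {X X' Y Y' : B} (hX : X ≤ X') (hY : Y ≤ Y') (hX0 : IsStrictlyPositive X)
    (hY0 : IsStrictlyPositive Y) {t : ℝ} (ht : t ∈ Set.Icc (0 : ℝ) 1) :
    Phi t X Y ≤ Phi t X' Y' := by
  have hX' := sp_of_le hX hX0
  have hY' := sp_of_le hY hY0
  refine (phi_mono_left hX hY0 ht).trans ?_
  rw [phi_swap hX' hY0, phi_swap hX' hY']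
  exact phi_mono_left hY hX' ⟨by linarith [ht.2], by linarith [ht.1]⟩

lemma Gm_cons (X Y : B) (L : List B) :
    Gm (X :: Y :: L) = Phi (1 / ((L.length + 2 : ℕ) : ℝ)) X (Gm (Y :: L)) := rfl

lemma t_mem (k : ℕ) : (1 / ((k + 2 : ℕ) : ℝ)) ∈ Set.Icc (0 : ℝ) 1 := by
  constructor
  · positivity
  · rw [div_le_one (by positivity)]
    push_cast
    linarith [(Nat.cast_nonneg k : (0 : ℝ) ≤ k)]

lemma Gm_sp : ∀ (L : List B), (∀ X ∈ L, IsStrictlyPositive X) → IsStrictlyPositive (Gm L)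
  | [], _ => isStrictlyPositive_one
  | [X], h => h X (by simp)
  | X :: Y :: L, h => by
    rw [Gm_cons]
    exact phi_sp (h X (by simp)) (Gm_sp (Y :: L) fun Z hZ => h Z (List.mem_cons_of_mem _ hZ)) _

/-- Monotonicity of the mean along lists given by two functions. -/
lemma Gm_mono {ι : Type*} (f g : ι → B) : ∀ (L : List ι), (∀ i ∈ L, IsStrictlyPositive (f i)) →
    (∀ i ∈ L, f i ≤ g i) → Gm (L.map f) ≤ Gm (L.map g)
  | [], _, _ => le_rfl
  | [i], _, h => h i (by simp)
  | i :: j :: L, h0, h => by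
    have ih := Gm_mono f g (j :: L) (fun k hk => h0 k (List.mem_cons_of_mem _ hk))
      (fun k hk => h k (List.mem_cons_of_mem _ hk))
    simp only [List.map_cons, Gm_cons, List.length_map] at ih ⊢
    refine phi_mono (h i (by simp)) ih (h0 i (by simp)) ?_ (t_mem _)
    have := Gm_sp ((j :: L).map f) (by
      intro X hX
      obtain ⟨k, hk, rfl⟩ := List.mem_map.1 hX
      exact h0 k (List.mem_cons_of_mem _ hk))
    simpa only [List.map_cons] using this

lemma map_Gm {B' : Type*} [CStarAlgebra B'] [PartialOrder B'] [StarOrderedRing B']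
    (φ : B →⋆ₐ[ℂ] B') : ∀ (L : List B), (∀ X ∈ L, IsStrictlyPositive X) →
    φ (Gm L) = Gm (L.map φ)
  | [], _ => map_one φ
  | [X], _ => rfl
  | X :: Y :: L, h => by
    have h1 := Gm_sp (Y :: L) fun Z hZ => h Z (List.mem_cons_of_mem _ hZ)
    have ih := map_Gm φ (Y :: L) fun Z hZ => h Z (List.mem_cons_of_mem _ hZ)
    rw [Gm_cons, map_phi φ (h X (by simp)) h1, ih]
    simp only [List.map_cons, Gm_cons, List.length_map]

/-! ### Comparison with the arithmetic and the harmonic means -/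

lemma rpow_le_aff {C : B} (hC : IsStrictlyPositive C) {t : ℝ} (ht : t ∈ Set.Icc (0 : ℝ) 1) :
    C ^ t ≤ t • C + (1 - t) • (1 : B) := by
  have hsa : IsSelfAdjoint C := hC.isSelfAdjoint
  have h1 : C ^ t = cfc (fun x : ℝ => x ^ t) C := CFC.rpow_eq_cfc_real hC.nonneg
  have h2 : t • C + (1 - t) • (1 : B) = cfc (fun x : ℝ => t * x + (1 - t)) C := by
    rw [cfc_add (a := C) (fun x : ℝ => t * x) (fun _ => 1 - t), cfc_const_mul_id t C,
      cfc_const (1 - t) C, Algebra.algebraMap_eq_smul_one]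
  rw [h1, h2]
  refine cfc_mono (fun x hx => ?_) ?_ ?_
  · have hx0 : 0 ≤ x := spectrum_nonneg_of_nonneg hC.nonneg hx
    have h := Real.geom_mean_le_arith_mean2_weighted ht.1 (sub_nonneg.2 ht.2) hx0 zero_le_one
      (by ring)
    simpa using h
  · exact (Real.continuous_rpow_const ht.1).continuousOn
  · fun_prop

lemma phi_le {X Y : B} (hX : IsStrictlyPositive X) (hY : IsStrictlyPositive Y) {t : ℝ}
    (ht : t ∈ Set.Icc (0 : ℝ) 1) : Phi t X Y ≤ t • X + (1 - t) • Y := by
  unfold Phi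
  have h1 := rpow_le_aff (sp_conj hX hY (-(1 / 2))) ht
  have h2 := conjugate_le_conjugate_of_nonneg h1 (hY.rpow Y (1 / 2)).nonneg
  refine h2.trans (le_of_eq ?_)
  have e1 : Y ^ (1 / 2 : ℝ) * Y ^ (-(1 / 2) : ℝ) = 1 := by
    rw [pw_add hY, add_neg_cancel, pw_zero hY]
  have e2 : Y ^ (-(1 / 2) : ℝ) * Y ^ (1 / 2 : ℝ) = 1 := by
    rw [pw_add hY, neg_add_cancel, pw_zero hY]
  have e3 : Y ^ (1 / 2 : ℝ) * Y ^ (1 / 2 : ℝ) = Y := by
    rw [pw_add hY]; norm_num; exact pw_one hY
  rw [mul_add, add_mul, mul_smul_comm, mul_smul_comm, smul_mul_assoc, smul_mul_assoc, mul_one, e3]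
  congr 2
  have e4 : Y ^ (1 / 2 : ℝ) * (Y ^ (-(1 / 2) : ℝ) * X * Y ^ (-(1 / 2) : ℝ)) * Y ^ (1 / 2 : ℝ)
      = (Y ^ (1 / 2 : ℝ) * Y ^ (-(1 / 2) : ℝ)) * X * (Y ^ (-(1 / 2) : ℝ) * Y ^ (1 / 2 : ℝ)) := by
    simp only [mul_assoc]
  rw [e4, e1, e2, one_mul, mul_one]

lemma inv_unique {Z V : B} (hZ : IsStrictlyPositive Z) (h : V * Z = 1) : Z ^ (-1 : ℝ) = V := by
  have h1 : Z * Z ^ (-1 : ℝ) = 1 := by
    conv_lhs => rw [← pw_one hZ]
    rw [CFC.rpow_rpow Z 1 (-1) one_ne_zero hZ, pw_add hZ]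
    norm_num
    exact pw_zero hZ
  calc Z ^ (-1 : ℝ) = (V * Z) * Z ^ (-1 : ℝ) := by rw [h, one_mul]
    _ = V * (Z * Z ^ (-1 : ℝ)) := mul_assoc _ _ _
    _ = V := by rw [h1, mul_one]

lemma inv_mul' {Z : B} (hZ : IsStrictlyPositive Z) : Z ^ (-1 : ℝ) * Z = 1 := by
  conv_lhs => rw [← pw_one hZ]
  rw [CFC.rpow_rpow Z 1 (-1) one_ne_zero hZ, pw_add hZ]
  norm_num
  exact pw_zero hZ

/-- Self-duality of the mean. -/
lemma phi_inv {X Y : B} (hX : IsStrictlyPositive X) (hY : IsStrictlyPositive Y) (t : ℝ) :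
    (Phi t X Y) ^ (-1 : ℝ) = Phi t (X ^ (-1 : ℝ)) (Y ^ (-1 : ℝ)) := by
  refine inv_unique (phi_sp hX hY t) ?_
  unfold Phi
  rw [CFC.rpow_rpow Y (-1) _ (by norm_num) hY, CFC.rpow_rpow Y (-1) _ (by norm_num) hY]
  have n1 : (-1 * (1 / 2) : ℝ) = -(1 / 2) := by norm_num
  have n2 : (-1 * -(1 / 2) : ℝ) = 1 / 2 := by norm_num
  rw [n1, n2]
  have e1 : Y ^ (1 / 2 : ℝ) * Y ^ (-(1 / 2) : ℝ) = 1 := by
    rw [pw_add hY, add_neg_cancel, pw_zero hY]
  have e2 : Y ^ (-(1 / 2) : ℝ) * Y ^ (1 / 2 : ℝ) = 1 := by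
    rw [pw_add hY, neg_add_cancel, pw_zero hY]
  set C := Y ^ (-(1 / 2) : ℝ) * X * Y ^ (-(1 / 2) : ℝ) with hC
  have hCsp : IsStrictlyPositive C := sp_conj hX hY _
  have h1 : Y ^ (1 / 2 : ℝ) * X ^ (-1 : ℝ) * Y ^ (1 / 2 : ℝ) = C ^ (-1 : ℝ) := by
    refine (inv_unique hCsp ?_).symm
    rw [hC]
    have e3 : Y ^ (1 / 2 : ℝ) * X ^ (-1 : ℝ) * Y ^ (1 / 2 : ℝ) *
        (Y ^ (-(1 / 2) : ℝ) * X * Y ^ (-(1 / 2) : ℝ)) =
        Y ^ (1 / 2 : ℝ) * (X ^ (-1 : ℝ) * ((Y ^ (1 / 2 : ℝ) * Y ^ (-(1 / 2) : ℝ)) * X)) *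
          Y ^ (-(1 / 2) : ℝ) := by simp only [mul_assoc]
    rw [e3, e1, one_mul, inv_mul' hX, mul_one, e1]
  rw [h1, CFC.rpow_rpow C (-1) t (by norm_num) hCsp]
  have e4 : Y ^ (-(1 / 2) : ℝ) * C ^ (-1 * t) * Y ^ (-(1 / 2) : ℝ) *
      (Y ^ (1 / 2 : ℝ) * C ^ t * Y ^ (1 / 2 : ℝ)) =
      Y ^ (-(1 / 2) : ℝ) * (C ^ (-1 * t) * ((Y ^ (-(1 / 2) : ℝ) * Y ^ (1 / 2 : ℝ)) * C ^ t)) *
        Y ^ (1 / 2 : ℝ) := by simp only [mul_assoc]
  rw [e4, e2, one_mul, pw_add hCsp]
  have n3 : -1 * t + t = 0 := by ring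
  rw [n3, pw_zero hCsp, mul_one, e2]

lemma Gm_le : ∀ (L : List B), L ≠ [] → (∀ X ∈ L, IsStrictlyPositive X) →
    Gm L ≤ ((L.length : ℝ)⁻¹) • L.sum
  | [], h, _ => absurd rfl h
  | [X], _, _ => by simp [Gm]
  | X :: Y :: L, _, h => by
    have h1 := Gm_sp (Y :: L) fun Z hZ => h Z (List.mem_cons_of_mem _ hZ)
    have ih := Gm_le (Y :: L) (by simp) fun Z hZ => h Z (List.mem_cons_of_mem _ hZ)
    rw [Gm_cons]
    refine (phi_le (h X (by simp)) h1 (t_mem _)).trans ?_
    have h2 := smul_le_smul_of_nonneg_left ih (sub_nonneg.2 (t_mem L.length).2)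
    refine (add_le_add_right h2 _).trans (le_of_eq ?_)
    rw [smul_smul]
    simp only [List.length_cons, List.sum_cons]
    set m : ℝ := (L.length : ℝ) with hm
    have hm0 : (0 : ℝ) ≤ m := by positivity
    have e1 : (1 - 1 / ((L.length + 2 : ℕ) : ℝ)) * ((L.length + 1 : ℕ) : ℝ)⁻¹
        = ((L.length + 1 + 1 : ℕ) : ℝ)⁻¹ := by
      push_cast
      rw [← hm]
      have : m + 1 ≠ 0 := by positivity
      have : m + 2 ≠ 0 := by positivity
      have : m + 1 + 1 ≠ 0 := by positivity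
      field_simp
      ring
    have e2 : 1 / ((L.length + 2 : ℕ) : ℝ) = ((L.length + 1 + 1 : ℕ) : ℝ)⁻¹ := by
      rw [one_div]
    rw [e1, e2, ← smul_add]

lemma Gm_inv : ∀ (L : List B), (∀ X ∈ L, IsStrictlyPositive X) →
    (Gm L) ^ (-1 : ℝ) = Gm (L.map fun X => X ^ (-1 : ℝ))
  | [], _ => by simp [Gm]
  | [X], _ => rfl
  | X :: Y :: L, h => by
    have h1 := Gm_sp (Y :: L) fun Z hZ => h Z (List.mem_cons_of_mem _ hZ)
    have ih := Gm_inv (Y :: L) fun Z hZ => h Z (List.mem_cons_of_mem _ hZ)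
    rw [Gm_cons, phi_inv (h X (by simp)) h1, ih]
    simp only [List.map_cons, Gm_cons, List.length_map]

/-! ### Two by two matrices -/

lemma exists_star_mul {a : B} (h : 0 ≤ a) : ∃ s : B, a = star s * s :=
  CStarAlgebra.nonneg_iff_eq_star_mul_self.1 h

/-- The homomorphism `(a, b) ↦ V diag (a, b) V*`, where `V` is an orthogonal matrix. -/
noncomputable def Psi (B : Type*) [CStarAlgebra B] (p r : ℝ) (h : r * r = p * (1 - p)) :
    B × B →⋆ₐ[ℂ] CStarMatrix (Fin 2) (Fin 2) B where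
  toFun x := CStarMatrix.ofMatrix
    !![p • x.1 + (1 - p) • x.2, r • (x.1 - x.2); r • (x.1 - x.2), (1 - p) • x.1 + p • x.2]
  map_one' := by
    ext i j
    fin_cases i <;> fin_cases j
    · show p • (1 : B) + (1 - p) • (1 : B) = 1
      module
    · show r • ((1 : B) - 1) = 0
      simp
    · show r • ((1 : B) - 1) = 0
      simp
    · show (1 - p) • (1 : B) + p • (1 : B) = 1
      module
  map_mul' x y := by
    ext i j
    fin_cases i <;> fin_cases j
    · simp only [CStarMatrix.mul_apply, Fin.sum_univ_two]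
      show p • (x.1 * y.1) + (1 - p) • (x.2 * y.2)
        = (p • x.1 + (1 - p) • x.2) * (p • y.1 + (1 - p) • y.2)
          + r • (x.1 - x.2) * r • (y.1 - y.2)
      simp only [mul_add, add_mul, mul_sub, sub_mul, smul_mul_smul_comm, h]
      module
    · simp only [CStarMatrix.mul_apply, Fin.sum_univ_two]
      show r • (x.1 * y.1 - x.2 * y.2)
        = (p • x.1 + (1 - p) • x.2) * r • (y.1 - y.2)
          + r • (x.1 - x.2) * ((1 - p) • y.1 + p • y.2)
      simp only [smul_sub, mul_add, add_mul, mul_sub, sub_mul, smul_mul_smul_comm]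
      module
    · simp only [CStarMatrix.mul_apply, Fin.sum_univ_two]
      show r • (x.1 * y.1 - x.2 * y.2)
        = r • (x.1 - x.2) * (p • y.1 + (1 - p) • y.2)
          + ((1 - p) • x.1 + p • x.2) * r • (y.1 - y.2)
      simp only [smul_sub, mul_add, add_mul, mul_sub, sub_mul, smul_mul_smul_comm]
      module
    · simp only [CStarMatrix.mul_apply, Fin.sum_univ_two]
      show (1 - p) • (x.1 * y.1) + p • (x.2 * y.2)
        = r • (x.1 - x.2) * r • (y.1 - y.2)
          + ((1 - p) • x.1 + p • x.2) * ((1 - p) • y.1 + p • y.2)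
      simp only [mul_add, add_mul, mul_sub, sub_mul, smul_mul_smul_comm, h]
      module
  map_zero' := by
    ext i j
    fin_cases i <;> fin_cases j
    · show p • (0 : B) + (1 - p) • (0 : B) = 0
      simp
    · show r • ((0 : B) - 0) = 0
      simp
    · show r • ((0 : B) - 0) = 0
      simp
    · show (1 - p) • (0 : B) + p • (0 : B) = 0
      simp
  map_add' x y := by
    ext i j
    fin_cases i <;> fin_cases j
    · show p • (x.1 + y.1) + (1 - p) • (x.2 + y.2)
        = (p • x.1 + (1 - p) • x.2) + (p • y.1 + (1 - p) • y.2)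
      module
    · show r • ((x.1 + y.1) - (x.2 + y.2)) = r • (x.1 - x.2) + r • (y.1 - y.2)
      module
    · show r • ((x.1 + y.1) - (x.2 + y.2)) = r • (x.1 - x.2) + r • (y.1 - y.2)
      module
    · show (1 - p) • (x.1 + y.1) + p • (x.2 + y.2)
        = ((1 - p) • x.1 + p • x.2) + ((1 - p) • y.1 + p • y.2)
      module
  commutes' z := by
    ext i j
    fin_cases i <;> fin_cases j
    · show p • (algebraMap ℂ B z) + (1 - p) • (algebraMap ℂ B z) = _
      rw [CStarMatrix.algebraMap_apply]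
      simp only [Fin.zero_eta, if_true]
      module
    · show r • ((algebraMap ℂ B z) - (algebraMap ℂ B z)) = _
      rw [CStarMatrix.algebraMap_apply]
      simp
    · show r • ((algebraMap ℂ B z) - (algebraMap ℂ B z)) = _
      rw [CStarMatrix.algebraMap_apply]
      simp
    · show (1 - p) • (algebraMap ℂ B z) + p • (algebraMap ℂ B z) = _
      rw [CStarMatrix.algebraMap_apply]
      simp only [Fin.mk_one, if_true]
      module
  map_star' x := by
    ext i j
    fin_cases i <;> fin_cases j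
    · show p • (star x.1) + (1 - p) • (star x.2) = star (p • x.1 + (1 - p) • x.2)
      rw [star_add, star_smul, star_smul, star_trivial p, star_trivial (1 - p)]
    · show r • ((star x.1) - (star x.2)) = star (r • (x.1 - x.2))
      rw [star_smul, star_sub, star_trivial r]
    · show r • ((star x.1) - (star x.2)) = star (r • (x.1 - x.2))
      rw [star_smul, star_sub, star_trivial r]
    · show (1 - p) • (star x.1) + p • (star x.2) = star ((1 - p) • x.1 + p • x.2)
      rw [star_add, star_smul, star_smul, star_trivial p, star_trivial (1 - p)]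

lemma Psi_00 (p r : ℝ) (h : r * r = p * (1 - p)) (x : B × B) :
    Psi B p r h x 0 0 = p • x.1 + (1 - p) • x.2 := rfl

lemma Psi_01 (p r : ℝ) (h : r * r = p * (1 - p)) (x : B × B) :
    Psi B p r h x 0 1 = r • (x.1 - x.2) := rfl

lemma Psi_10 (p r : ℝ) (h : r * r = p * (1 - p)) (x : B × B) :
    Psi B p r h x 1 0 = r • (x.1 - x.2) := rfl

lemma Psi_11 (p r : ℝ) (h : r * r = p * (1 - p)) (x : B × B) :
    Psi B p r h x 1 1 = (1 - p) • x.1 + p • x.2 := rfl

/-- The sum of the entries is monotone. -/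
lemma entries_mono {M N : CStarMatrix (Fin 2) (Fin 2) B} (h : M ≤ N) :
    M 0 0 + M 0 1 + M 1 0 + M 1 1 ≤ N 0 0 + N 0 1 + N 1 0 + N 1 1 := by
  have h1 : 0 ≤ N - M := sub_nonneg.2 h
  obtain ⟨S, hS⟩ := exists_star_mul h1
  have h2 : (N 0 0 + N 0 1 + N 1 0 + N 1 1) - (M 0 0 + M 0 1 + M 1 0 + M 1 1)
      = star (S 0 0 + S 0 1) * (S 0 0 + S 0 1) + star (S 1 0 + S 1 1) * (S 1 0 + S 1 1) := by
    have e : ∀ i j, N i j - M i j = star (S 0 i) * S 0 j + star (S 1 i) * S 1 j := by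
      intro i j
      have : (N - M) i j = (star S * S) i j := by rw [hS]
      rw [CStarMatrix.mul_apply, Fin.sum_univ_two, CStarMatrix.star_apply,
        CStarMatrix.star_apply] at this
      exact this
    have e2 : (N 0 0 + N 0 1 + N 1 0 + N 1 1) - (M 0 0 + M 0 1 + M 1 0 + M 1 1)
        = (N 0 0 - M 0 0) + (N 0 1 - M 0 1) + (N 1 0 - M 1 0) + (N 1 1 - M 1 1) := by abel
    rw [e2, e, e, e, e]
    simp only [star_add, add_mul, mul_add]
    abel
  rw [← sub_nonneg, h2]
  exact add_nonneg (star_mul_self_nonneg _) (star_mul_self_nonneg _)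

/-- A basic positive matrix. -/
lemma le_of_block {M N : CStarMatrix (Fin 2) (Fin 2) B} {V : B} (hV : 0 ≤ V)
    (h00 : N 0 0 - M 0 0 = V) (h01 : N 0 1 - M 0 1 = -V) (h10 : N 1 0 - M 1 0 = -V)
    (h11 : N 1 1 - M 1 1 = V) : M ≤ N := by
  obtain ⟨v, hv⟩ := exists_star_mul hV
  rw [← sub_nonneg]
  have e : N - M = star (CStarMatrix.ofMatrix !![v, -v; 0, 0]) *
      (CStarMatrix.ofMatrix !![v, -v; 0, 0]) := by
    ext i j
    rw [CStarMatrix.mul_apply, Fin.sum_univ_two, CStarMatrix.star_apply, CStarMatrix.star_apply]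
    fin_cases i <;> fin_cases j
    · show N 0 0 - M 0 0 = star v * v + star (0 : B) * 0
      rw [h00, hv]; simp
    · show N 0 1 - M 0 1 = star v * (-v) + star (0 : B) * 0
      rw [h01, hv]; simp
    · show N 1 0 - M 1 0 = star (-v) * v + star (0 : B) * 0
      rw [h10, hv]; simp
    · show N 1 1 - M 1 1 = star (-v) * (-v) + star (0 : B) * 0
      rw [h11, hv]; simp
  rw [e]
  exact star_mul_self_nonneg _

/-! ### The path -/

/-- `f (s) = G (1/2 + s U_1, ..., 1/2 + s U_n)`. -/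
noncomputable def pt (s : ℝ) (U : B) : B := (1 / 2 : ℝ) • (1 : B) + s • U

noncomputable def ff (us : List B) (s : ℝ) : B := Gm (us.map (pt s))

lemma pt_sp {U : B} (h0 : 0 ≤ U) (h1 : IsStrictlyPositive ((1 / 2 : ℝ) • (1 : B) - U)) {s : ℝ}
    (hs : -1 ≤ s) : IsStrictlyPositive (pt s U) := by
  have e : pt s U = ((1 / 2 : ℝ) • (1 : B) - U) + (1 + s) • U := by
    unfold pt; module
  rw [e]
  exact h1.add_nonneg (smul_nonneg (by linarith) h0)

lemma ff_prod (us : List B) (h : ∀ U ∈ us, 0 ≤ U ∧ IsStrictlyPositive ((1 / 2 : ℝ) • (1 : B) - U))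
    {s t : ℝ} (hs : -1 ≤ s) (ht : -1 ≤ t) :
    Gm (us.map fun U => ((pt s U, pt t U) : B × B)) = (ff us s, ff us t) := by
  have hsp : ∀ X ∈ us.map fun U => ((pt s U, pt t U) : B × B), IsStrictlyPositive X := by
    intro X hX
    obtain ⟨U, hU, rfl⟩ := List.mem_map.1 hX
    have a1 := pt_sp (h U hU).1 (h U hU).2 hs
    have a2 := pt_sp (h U hU).1 (h U hU).2 ht
    refine ⟨Prod.mk_le_mk.2 ⟨a1.nonneg, a2.nonneg⟩, ?_⟩
    rw [Prod.isUnit_iff]
    exact ⟨a1.isUnit, a2.isUnit⟩
  refine Prod.ext ?_ ?_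
  · have e := map_Gm (StarAlgHom.fst ℂ B B) _ hsp
    simp only [List.map_map] at e
    exact e
  · have e := map_Gm (StarAlgHom.snd ℂ B B) _ hsp
    simp only [List.map_map] at e
    exact e

/-- The value of the mean at the image of a pair. -/
lemma ff_psi (us : List B) (h : ∀ U ∈ us, 0 ≤ U ∧ IsStrictlyPositive ((1 / 2 : ℝ) • (1 : B) - U))
    {s t : ℝ} (hs : -1 ≤ s) (ht : -1 ≤ t) (p r : ℝ) (hp : r * r = p * (1 - p)) :
    Gm (us.map fun U => Psi B p r hp (pt s U, pt t U)) = Psi B p r hp (ff us s, ff us t) := by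
  rw [← ff_prod us h hs ht, map_Gm, List.map_map]
  · rfl
  · intro X hX
    obtain ⟨U, hU, rfl⟩ := List.mem_map.1 hX
    have a1 := pt_sp (h U hU).1 (h U hU).2 hs
    have a2 := pt_sp (h U hU).1 (h U hU).2 ht
    refine ⟨Prod.mk_le_mk.2 ⟨a1.nonneg, a2.nonneg⟩, ?_⟩
    rw [Prod.isUnit_iff]
    exact ⟨a1.isUnit, a2.isUnit⟩

/-- The key inequality: `√2 (f (a/√2) - f (-a/√2)) ≤ f (a) - f (-a)`. -/
lemma key (us : List B) (h : ∀ U ∈ us, 0 ≤ U ∧ IsStrictlyPositive ((1 / 2 : ℝ) • (1 : B) - U))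
    {w a : ℝ} (hw : w * w = 1 / 2) (hw0 : 0 < w) (ha0 : 0 ≤ a) (ha1 : a ≤ 1) :
    (2 * w) • (ff us (a * w) - ff us (-(a * w))) ≤ ff us a - ff us (-a) := by
  have hw1 : w ≤ 1 := by nlinarith
  have haw : a * w ≤ 1 := by nlinarith
  have haw0 : 0 ≤ a * w := by positivity
  have hA : (-1 : ℝ) ≤ a * w := by linarith
  have hB : (-1 : ℝ) ≤ -(a * w) := by linarith
  have hp : (w / 2) * (w / 2) = ((1 + w) / 2) * (1 - (1 + w) / 2) := by nlinarith
  have hp' : (-(w / 2)) * (-(w / 2)) = ((1 + w) / 2) * (1 - (1 + w) / 2) := by nlinarith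
  have h1 : (0 : ℝ) * 0 = 1 * (1 - 1) := by norm_num
  have spsi : ∀ (p r : ℝ) (hpr : r * r = p * (1 - p)) (s t : ℝ), -1 ≤ s → -1 ≤ t → ∀ U ∈ us,
      IsStrictlyPositive (Psi B p r hpr (pt s U, pt t U)) := by
    intro p r hpr s t hs ht U hU
    refine map_sp _ ?_
    have a1 := pt_sp (h U hU).1 (h U hU).2 hs
    have a2 := pt_sp (h U hU).1 (h U hU).2 ht
    refine ⟨Prod.mk_le_mk.2 ⟨a1.nonneg, a2.nonneg⟩, ?_⟩
    rw [Prod.isUnit_iff]
    exact ⟨a1.isUnit, a2.isUnit⟩
  -- first inequality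
  have I1 : ff us (a * w) + ff us (-(a * w)) + w • (ff us (a * w) - ff us (-(a * w)))
      ≤ ff us a + ff us 0 := by
    have m := Gm_mono (fun U => Psi B ((1 + w) / 2) (w / 2) hp (pt (a * w) U, pt (-(a * w)) U))
      (fun U => Psi B 1 0 h1 (pt a U, pt 0 U)) us
      (fun U hU => spsi _ _ _ _ _ hA hB U hU) (fun U hU => by
        refine le_of_block (V := (a / 2) • U) (smul_nonneg (by linarith) (h U hU).1) ?_ ?_ ?_ ?_
        · simp only [Psi_00, pt]
          match_scalars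
          · ring
          · linear_combination (-a) * hw
        · simp only [Psi_01, pt]
          match_scalars
          · ring
          · linear_combination (-a) * hw
        · simp only [Psi_10, pt]
          match_scalars
          · ring
          · linear_combination (-a) * hw
        · simp only [Psi_11, pt]
          match_scalars
          · ring
          · linear_combination a * hw)
    rw [ff_psi us h hA hB, ff_psi us h (by linarith) (by norm_num)] at m
    have e := entries_mono m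
    simp only [Psi_00, Psi_01, Psi_10, Psi_11] at e
    refine le_trans (le_of_eq ?_) (e.trans (le_of_eq ?_))
    · module
    · module
  have I2 : ff us 0 + ff us (-a) ≤
      ff us (a * w) + ff us (-(a * w)) - w • (ff us (a * w) - ff us (-(a * w))) := by
    have m := Gm_mono (fun U => Psi B 1 0 h1 (pt 0 U, pt (-a) U))
      (fun U => Psi B ((1 + w) / 2) (-(w / 2)) hp' (pt (a * w) U, pt (-(a * w)) U)) us
      (fun U hU => spsi _ _ _ _ _ (by norm_num) (by linarith) U hU) (fun U hU => by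
        refine le_of_block (V := (a / 2) • U) (smul_nonneg (by linarith) (h U hU).1) ?_ ?_ ?_ ?_
        · simp only [Psi_00, pt]
          match_scalars
          · ring
          · linear_combination a * hw
        · simp only [Psi_01, pt]
          match_scalars
          · ring
          · linear_combination (-a) * hw
        · simp only [Psi_10, pt]
          match_scalars
          · ring
          · linear_combination (-a) * hw
        · simp only [Psi_11, pt]
          match_scalars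
          · ring
          · linear_combination (-a) * hw)
    rw [ff_psi us h hA hB, ff_psi us h (by norm_num) (by linarith)] at m
    have e := entries_mono m
    simp only [Psi_00, Psi_01, Psi_10, Psi_11] at e
    refine le_trans (le_of_eq ?_) (e.trans (le_of_eq ?_))
    · module
    · module
  have I3 := sub_le_sub I1 I2
  refine le_trans (le_of_eq ?_) (I3.trans (le_of_eq ?_))
  · module
  · abel

/-! ### Behaviour near zero -/

lemma spec_le {U : B} (h0 : 0 ≤ U) (h1 : U ≤ (1 / 2 : ℝ) • (1 : B)) {u : ℝ}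
    (hu : u ∈ spectrum ℝ U) : 0 ≤ u ∧ u ≤ 1 / 2 := by
  refine ⟨spectrum_nonneg_of_nonneg h0 hu, ?_⟩
  have h2 : U ≤ algebraMap ℝ B (1 / 2) := by rwa [Algebra.algebraMap_eq_smul_one]
  exact (le_algebraMap_iff_spectrum_le (IsSelfAdjoint.of_nonneg h0)).1 h2 u hu

lemma pt_inv_le {U : B} (h0 : 0 ≤ U) (h1 : U ≤ (1 / 2 : ℝ) • (1 : B)) {s : ℝ} (hs : 0 ≤ s) :
    (pt s U) ^ (-1 : ℝ) ≤ (2 + 2 * s ^ 2) • (1 : B) - (4 * s) • U := by
  have hsa : IsSelfAdjoint U := IsSelfAdjoint.of_nonneg h0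
  have e1 : pt s U = cfc (fun u : ℝ => 1 / 2 + s * u) U := by
    rw [cfc_const_add (1 / 2) (fun u : ℝ => s * u) U, cfc_const_mul_id s U,
      Algebra.algebraMap_eq_smul_one]
    rfl
  have e2 : (2 + 2 * s ^ 2) • (1 : B) - (4 * s) • U
      = cfc (fun u : ℝ => (2 + 2 * s ^ 2) - 4 * s * u) U := by
    rw [cfc_sub (a := U) (fun _ : ℝ => 2 + 2 * s ^ 2) (fun u : ℝ => 4 * s * u),
      cfc_const_mul_id (4 * s) U, cfc_const (2 + 2 * s ^ 2) U, Algebra.algebraMap_eq_smul_one]
  have hpos : ∀ u ∈ spectrum ℝ U, 0 < 1 / 2 + s * u := by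
    intro u hu
    have := (spec_le h0 h1 hu).1
    positivity
  rw [e1, e2, CFC.cfc_rpow hpos (by fun_prop) hsa]
  refine cfc_mono (fun u hu => ?_) ?_ ?_
  · obtain ⟨hu0, hu1⟩ := spec_le h0 h1 hu
    rw [Real.rpow_neg_one, inv_le_iff_one_le_mul₀ (hpos u hu)]
    have e3 : (2 + 2 * s ^ 2 - 4 * s * u) * (1 / 2 + s * u)
        = 1 + s ^ 2 * (1 - 4 * u ^ 2) + 2 * s ^ 3 * u := by ring
    rw [e3]
    have e4 : 0 ≤ 1 - 4 * u ^ 2 := by nlinarith
    have e5 : 0 ≤ s ^ 2 * (1 - 4 * u ^ 2) := by positivity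
    have e6 : 0 ≤ 2 * s ^ 3 * u := by positivity
    linarith
  · refine ContinuousOn.rpow_const (by fun_prop) fun u hu => Or.inl (hpos u hu).ne'
  · fun_prop

/-- The arithmetic mean of a list. -/
noncomputable def mn (L : List B) : B := ((L.length : ℝ)⁻¹) • L.sum

lemma sum_aff (us : List B) (c d : ℝ) :
    (us.map fun U => c • (1 : B) + d • U).sum = ((us.length : ℝ) * c) • (1 : B) + d • us.sum := by
  induction us with
  | nil => simp
  | cons U us ih =>
    rw [List.map_cons, List.sum_cons, ih, List.length_cons, List.sum_cons]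
    push_cast
    module

lemma mn_aff (us : List B) (hus : us ≠ []) (c d : ℝ) :
    mn (us.map fun U => c • (1 : B) + d • U) = c • (1 : B) + d • mn us := by
  have hl : (us.length : ℝ) ≠ 0 := by
    have : us.length ≠ 0 := fun h => hus (List.length_eq_zero_iff.1 h)
    exact_mod_cast this
  unfold mn
  rw [sum_aff, List.length_map, smul_add, smul_smul, smul_smul, smul_smul, ← mul_assoc,
    inv_mul_cancel₀ hl, one_mul, mul_comm d]

lemma ff_le (us : List B) (hus : us ≠ [])
    (h : ∀ U ∈ us, 0 ≤ U ∧ IsStrictlyPositive ((1 / 2 : ℝ) • (1 : B) - U)) {s : ℝ} (hs : -1 ≤ s) :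
    ff us s ≤ pt s (mn us) := by
  have h1 : ff us s ≤ mn (us.map (pt s)) := by
    refine Gm_le _ (by simpa using hus) ?_
    intro X hX
    obtain ⟨U, hU, rfl⟩ := List.mem_map.1 hX
    exact pt_sp (h U hU).1 (h U hU).2 hs
  refine h1.trans (le_of_eq ?_)
  exact mn_aff us hus (1 / 2) s

lemma mn_bounds (us : List B) (hus : us ≠ [])
    (h : ∀ U ∈ us, 0 ≤ U ∧ IsStrictlyPositive ((1 / 2 : ℝ) • (1 : B) - U)) :
    0 ≤ mn us ∧ mn us ≤ (1 / 2 : ℝ) • (1 : B) := by
  have hl : (us.length : ℝ) ≠ 0 := by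
    have : us.length ≠ 0 := fun h => hus (List.length_eq_zero_iff.1 h)
    exact_mod_cast this
  constructor
  · exact smul_nonneg (by positivity) (List.sum_nonneg fun U hU => (h U hU).1)
  · have h1 : us.sum ≤ ((us.length : ℝ) * (1 / 2)) • (1 : B) := by
      have h2 : (us.map fun U => U).sum ≤ (us.map fun _ => (1 / 2 : ℝ) • (1 : B)).sum :=
        List.sum_le_sum fun U hU => sub_nonneg.1 (h U hU).2.nonneg
      rw [List.map_id'] at h2
      refine h2.trans (le_of_eq ?_)
      rw [List.map_const', List.sum_replicate, mul_smul, ← Nat.cast_smul_eq_nsmul ℝ]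
    unfold mn
    refine (smul_le_smul_of_nonneg_left h1 (by positivity)).trans (le_of_eq ?_)
    rw [smul_smul, ← mul_assoc, inv_mul_cancel₀ hl, one_mul]

lemma le_ff (us : List B) (hus : us ≠ [])
    (h : ∀ U ∈ us, 0 ≤ U ∧ IsStrictlyPositive ((1 / 2 : ℝ) • (1 : B) - U)) {s : ℝ} (hs : 0 ≤ s) :
    pt s (mn us) - (s ^ 2 / 2) • (1 : B) ≤ ff us s := by
  have hsp : ∀ X ∈ us.map (pt s), IsStrictlyPositive X := by
    intro X hX
    obtain ⟨U, hU, rfl⟩ := List.mem_map.1 hX
    exact pt_sp (h U hU).1 (h U hU).2 (by linarith)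
  have hG : IsStrictlyPositive (ff us s) := Gm_sp _ hsp
  have h1 : (ff us s) ^ (-1 : ℝ) ≤ (2 + 2 * s ^ 2) • (1 : B) - (4 * s) • mn us := by
    have e1 : (ff us s) ^ (-1 : ℝ) = Gm ((us.map (pt s)).map fun X => X ^ (-1 : ℝ)) :=
      Gm_inv _ hsp
    rw [e1]
    refine (Gm_le _ (by simpa using hus) ?_).trans ?_
    · intro X hX
      obtain ⟨Y, hY, rfl⟩ := List.mem_map.1 hX
      exact (hsp Y hY).rpow Y _
    · have e2 : (2 + 2 * s ^ 2) • (1 : B) - (4 * s) • mn us
          = mn (us.map fun U => (2 + 2 * s ^ 2) • (1 : B) + (-(4 * s)) • U) := by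
        rw [mn_aff us hus, neg_smul, sub_eq_add_neg]
      rw [e2]
      unfold mn
      rw [List.map_map, List.length_map, List.length_map]
      refine smul_le_smul_of_nonneg_left ?_ (by positivity)
      refine List.sum_le_sum fun U hU => ?_
      have h3 := pt_inv_le (h U hU).1 (sub_nonneg.1 (h U hU).2.nonneg) hs
      refine h3.trans (le_of_eq ?_)
      rw [neg_smul, sub_eq_add_neg]
  have h2 := CStarAlgebra.rpow_neg_one_le_rpow_neg_one h1 (hG.rpow _ _)
  rw [CFC.rpow_rpow (ff us s) (-1) (-1) (by norm_num) hG] at h2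
  norm_num at h2
  rw [pw_one hG] at h2
  refine le_trans ?_ h2
  obtain ⟨hm0, hm1⟩ := mn_bounds us hus h
  set U := mn us with hU
  have hsa : IsSelfAdjoint U := IsSelfAdjoint.of_nonneg hm0
  have e2 : (2 + 2 * s ^ 2) • (1 : B) - (4 * s) • U
      = cfc (fun u : ℝ => (2 + 2 * s ^ 2) - 4 * s * u) U := by
    rw [cfc_sub (a := U) (fun _ : ℝ => 2 + 2 * s ^ 2) (fun u : ℝ => 4 * s * u),
      cfc_const_mul_id (4 * s) U, cfc_const (2 + 2 * s ^ 2) U, Algebra.algebraMap_eq_smul_one]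
  have e3 : pt s U - (s ^ 2 / 2) • (1 : B)
      = cfc (fun u : ℝ => (1 / 2 - s ^ 2 / 2) + s * u) U := by
    rw [cfc_const_add (1 / 2 - s ^ 2 / 2) (fun u : ℝ => s * u) U, cfc_const_mul_id s U,
      Algebra.algebraMap_eq_smul_one]
    unfold pt
    module
  have hpos : ∀ u ∈ spectrum ℝ U, 0 < (2 + 2 * s ^ 2) - 4 * s * u := by
    intro u hu
    obtain ⟨hu0, hu1⟩ := spec_le hm0 hm1 hu
    nlinarith [mul_nonneg hs (sub_nonneg.2 hu1), sq_nonneg (s - 1)]
  rw [e3, e2, CFC.cfc_rpow hpos (by fun_prop) hsa]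
  refine cfc_mono (fun u hu => ?_) ?_ ?_
  · rw [Real.rpow_neg_one, ← one_div, le_div_iff₀ (hpos u hu)]
    nlinarith [sq_nonneg (2 * s * u - s ^ 2)]
  · fun_prop
  · refine ContinuousOn.rpow_const (by fun_prop) fun u hu => Or.inl (hpos u hu).ne'

/-- The main inequality for the path. -/
lemma main_path (us : List B) (hus : us ≠ [])
    (h : ∀ U ∈ us, 0 ≤ U ∧ IsStrictlyPositive ((1 / 2 : ℝ) • (1 : B) - U)) :
    (2 : ℝ) • mn us ≤ ff us 1 - ff us (-1) := by
  set w : ℝ := Real.sqrt 2 / 2 with hw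
  have h2 : Real.sqrt 2 * Real.sqrt 2 = 2 := Real.mul_self_sqrt (by norm_num)
  have hww : w * w = 1 / 2 := by rw [hw]; nlinarith
  have hw0 : 0 < w := by rw [hw]; positivity
  have hw1 : w < 1 := by nlinarith
  have iter : ∀ k : ℕ, ((w ^ k)⁻¹) • (ff us (w ^ k) - ff us (-(w ^ k))) ≤
      ff us 1 - ff us (-1) := by
    intro k
    induction k with
    | zero => simp
    | succ k ih =>
      refine le_trans ?_ ih
      have hk0 : 0 < w ^ k := by positivity
      have hk1 : w ^ k ≤ 1 := pow_le_one₀ hw0.le hw1.le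
      have h3 := key us h hww hw0 hk0.le hk1
      have h4 := smul_le_smul_of_nonneg_left h3 (inv_nonneg.2 hk0.le)
      refine le_trans (le_of_eq ?_) h4
      rw [smul_smul, ← pow_succ]
      congr 1
      rw [pow_succ]
      field_simp
      nlinarith
  have bound : ∀ k : ℕ, (2 : ℝ) • mn us - (w ^ k / 2) • (1 : B) ≤ ff us 1 - ff us (-1) := by
    intro k
    have hk0 : 0 < w ^ k := by positivity
    have hk1 : w ^ k ≤ 1 := pow_le_one₀ hw0.le hw1.le
    refine le_trans ?_ (iter k)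
    have h3 := sub_le_sub (le_ff us hus h hk0.le)
      (ff_le us hus h (s := -(w ^ k)) (by linarith))
    refine le_trans (le_of_eq ?_) (smul_le_smul_of_nonneg_left h3 (inv_nonneg.2 hk0.le))
    unfold pt
    match_scalars
    · field_simp; ring
    · field_simp; ring
  have hlim : Filter.Tendsto (fun k : ℕ => (2 : ℝ) • mn us - (w ^ k / 2) • (1 : B))
      Filter.atTop (nhds ((2 : ℝ) • mn us - ((0 : ℝ) / 2) • (1 : B))) := by
    refine tendsto_const_nhds.sub (Filter.Tendsto.smul_const ?_ _)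
    exact (tendsto_pow_atTop_nhds_zero_of_lt_one hw0.le hw1).div_const 2
  have h5 := le_of_tendsto' hlim bound
  simpa using h5

/-- The inequality in a C*-algebra. -/
lemma main_cstar (L : List B) (hL : L ≠ []) (h : ∀ X ∈ L, IsStrictlyPositive X ∧
    X ≤ (1 / 2 : ℝ) • (1 : B)) :
    mn (L.map fun X => 1 - X) - Gm (L.map fun X => 1 - X) ≤ mn L - Gm L := by
  set us : List B := L.map fun X => (1 / 2 : ℝ) • (1 : B) - X with hus
  have hus0 : us ≠ [] := by simpa [hus] using hL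
  have h1 : ∀ U ∈ us, 0 ≤ U ∧ IsStrictlyPositive ((1 / 2 : ℝ) • (1 : B) - U) := by
    intro U hU
    obtain ⟨X, hX, rfl⟩ := List.mem_map.1 hU
    refine ⟨sub_nonneg.2 (h X hX).2, ?_⟩
    rw [sub_sub_cancel]
    exact (h X hX).1
  have h2 := main_path us hus0 h1
  have e1 : ff us 1 = Gm (L.map fun X => 1 - X) := by
    unfold ff
    rw [hus, List.map_map]
    congr 1
    refine List.map_congr_left fun X _ => ?_
    simp only [Function.comp, pt]
    module
  have e2 : ff us (-1) = Gm L := by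
    unfold ff
    rw [hus, List.map_map]
    congr 1
    conv_rhs => rw [← List.map_id L]
    refine List.map_congr_left fun X _ => ?_
    simp only [Function.comp, pt, id]
    module
  have e3 : mn us = (1 / 2 : ℝ) • (1 : B) - mn L := by
    have := mn_aff L hL (1 / 2) (-1)
    rw [hus]
    rw [neg_one_smul, ← sub_eq_add_neg] at this
    rw [← this]
    congr 1
    refine List.map_congr_left fun X _ => ?_
    rw [neg_one_smul, sub_eq_add_neg]
  have e4 : mn (L.map fun X => 1 - X) = 1 - mn L := by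
    have := mn_aff L hL 1 (-1)
    rw [neg_one_smul, ← sub_eq_add_neg, one_smul] at this
    rw [← this]
    congr 1
    refine List.map_congr_left fun X _ => ?_
    rw [neg_one_smul, sub_eq_add_neg]
  rw [e1, e2, e3] at h2
  rw [e4, ← sub_nonneg]
  have h3 := sub_nonneg.2 h2
  refine h3.trans (le_of_eq ?_)
  module

end generic

/-- **Theorem** (operator version of Alzer's inequality). Let `A_1, ..., A_n` be positive
invertible operators on a complex Hilbert space with `A_j ≤ 1/2`, and `A'_j = 1 - A_j`. Then the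
operator `(A_n - G_n) - (A'_n - G'_n)` is positive. -/
theorem result {H : Type*} [NormedAddCommGroup H] [InnerProductSpace ℂ H] [CompleteSpace H]
    (n : ℕ) (hn : 2 ≤ n) (A : Fin n → (H →L[ℂ] H)) (hpos : ∀ j, 0 ≤ A j)
    (hunit : ∀ j, IsUnit (A j)) (hhalf : ∀ j, A j ≤ (1 / 2 : ℝ) • (1 : H →L[ℂ] H)) :
    0 ≤ (((n : ℝ)⁻¹) • ∑ j, A j - Gm (List.ofFn A)) -
      (((n : ℝ)⁻¹) • ∑ j, (1 - A j) - Gm (List.ofFn fun j => 1 - A j)) := by
  have hL : List.ofFn A ≠ [] := by
    intro h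
    have := congrArg List.length h
    simp at this
    omega
  have h := main_cstar (List.ofFn A) hL (by
    intro X hX
    obtain ⟨j, rfl⟩ := List.mem_ofFn.1 hX
    exact ⟨⟨hpos j, hunit j⟩, hhalf j⟩)
  rw [sub_nonneg]
  unfold mn at h
  rw [List.length_map, List.length_ofFn, List.map_ofFn, List.sum_ofFn, List.sum_ofFn] at h
  exact h

end Pool.Agent.Results.MP_be8317_an.OperatorAlzer
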